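import Mathlib
import Pool.Agent.H220.K.Stm

set_option autoImplicit false

open Set Filter Topology Metric
open scoped ContDiff ComplexConjugate

/-!
# MP_0015b7_an : propagation of the value minus infinity for psh functions
-/

namespace Pool.Agent.H127.K

open Pool.Agent.H220.K

/-- the tent function near `1` -/
noncomputable def tent (ε : ℝ) (ζ : ℂ) : ℝ := max 0 (1 - ‖ζ - 1‖ / ε)

lemma tent_cont (ε : ℝ) : Continuous (tent ε) := by
  unfold tent
  fun_prop

lemma tent_nonneg (ε : ℝ) (ζ : ℂ) : 0 ≤ tent ε ζ := le_max_left _ _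

lemma tent_far {ε : ℝ} (hε : 0 < ε) {ζ : ℂ} (h : ε ≤ ‖ζ - 1‖) : tent ε ζ = 0 := by
  unfold tent
  apply max_eq_left
  have : 1 ≤ ‖ζ - 1‖ / ε := by rwa [le_div_iff₀ hε, one_mul]
  linarith

lemma tent_avg_pos {ε : ℝ} (_hε : 0 < ε) :
    0 < ∫ θ in (0 : ℝ)..2 * Real.pi, tent ε (circleMap 0 1 θ) := by
  have h0 : (0 : ℝ) < 2 * Real.pi := by positivity
  apply intervalIntegral.integral_pos h0
  · exact ((tent_cont ε).comp (continuous_circleMap 0 1)).continuousOn
  · intro x _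
    exact tent_nonneg _ _
  · refine ⟨0, ⟨le_refl _, h0.le⟩, ?_⟩
    simp [tent, circleMap]

lemma avg_eq (ε M K : ℝ) : Real.circleAverage (fun ζ => M - K * tent ε ζ) 0 1 =
    M - K * ((2 * Real.pi)⁻¹ * ∫ θ in (0 : ℝ)..2 * Real.pi, tent ε (circleMap 0 1 θ)) := by
  have hc : Continuous fun θ : ℝ => tent ε (circleMap 0 1 θ) :=
    (tent_cont ε).comp (continuous_circleMap 0 1)
  unfold Real.circleAverage
  rw [intervalIntegral.integral_sub intervalIntegrable_const ((hc.const_mul K |>.intervalIntegrable _ _)),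
    intervalIntegral.integral_const, intervalIntegral.integral_const_mul]
  have := Real.pi_pos
  simp only [smul_eq_mul, sub_zero]
  field_simp

/-- **(N)** -/
lemma bot_of_arc {V : Set E3} {u : E3 → EReal} (hu : PSH V u) {z ξ : E3} {ε : ℝ} (hε : 0 < ε)
    (hV : ∀ ζ : ℂ, ‖ζ‖ ≤ 1 → z + ζ • ξ ∈ V)
    (hb : ∀ ζ : ℂ, ‖ζ‖ = 1 → ‖ζ - 1‖ < ε → u (z + ζ • ξ) = ⊥) : u z = ⊥ := by
  have hzV : z ∈ V := by
    have := hV 0 (by simp)
    simpa using this
  -- an upper bound on the circle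
  obtain ⟨M, hM⟩ : ∃ M : ℝ, ∀ ζ : ℂ, ‖ζ‖ = 1 → u (z + ζ • ξ) ≤ (M : EReal) := by
    have hK : IsCompact ((fun ζ : ℂ => z + ζ • ξ) '' sphere (0 : ℂ) 1) :=
      (isCompact_sphere (0 : ℂ) 1).image (by fun_prop)
    have hKV : (fun ζ : ℂ => z + ζ • ξ) '' sphere (0 : ℂ) 1 ⊆ V := by
      rintro _ ⟨ζ, hζ, rfl⟩
      exact hV ζ (by simpa using (mem_sphere_zero_iff_norm.1 hζ).le)
    have hne : ((fun ζ : ℂ => z + ζ • ξ) '' sphere (0 : ℂ) 1).Nonempty :=
      ⟨z + (1 : ℂ) • ξ, 1, by simp, rfl⟩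
    obtain ⟨a, ha, hmax⟩ := (hu.usc.mono hKV).exists_isMaxOn hne hK
    have hat : u a ≠ ⊤ := hu.ne_top a (hKV ha)
    obtain ⟨M, hM⟩ : ∃ M : ℝ, u a ≤ (M : EReal) := by
      induction h : u a with
      | bot => exact ⟨0, bot_le⟩
      | top => exact absurd h hat
      | coe r => exact ⟨r, le_refl _⟩
    exact ⟨M, fun ζ hζ => (hmax ⟨ζ, by simpa using hζ, rfl⟩).trans hM⟩
  by_contra hne
  have hnt : u z ≠ ⊤ := hu.ne_top z hzV
  obtain ⟨r, hr⟩ : ∃ r : ℝ, u z = (r : EReal) := by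
    induction h : u z with
    | bot => exact absurd h hne
    | top => exact absurd h hnt
    | coe r => exact ⟨r, rfl⟩
  set c : ℝ := (2 * Real.pi)⁻¹ * ∫ θ in (0 : ℝ)..2 * Real.pi, tent ε (circleMap 0 1 θ) with hc
  have hcpos : 0 < c := by
    have := tent_avg_pos hε
    have h2 : 0 < 2 * Real.pi := by positivity
    positivity
  have key : ∀ K : ℝ, 0 ≤ K → r ≤ M - K * c := by
    intro K hK
    have h1 := hu.mean z ξ hV (fun ζ => M - K * tent ε ζ)
      (by have := tent_cont ε; fun_prop) (by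
        intro ζ hζ
        by_cases h : ‖ζ - 1‖ < ε
        · rw [hb ζ hζ h]
          exact bot_le
        · rw [tent_far hε (not_lt.1 h), mul_zero, sub_zero]
          exact hM ζ hζ)
    rw [avg_eq, ← hc, hr] at h1
    exact_mod_cast h1
  have h0 := key 0 le_rfl
  have h1 := key ((M - r + 1) / c) (by
    apply div_nonneg _ hcpos.le
    linarith)
  rw [div_mul_cancel₀ _ hcpos.ne'] at h1
  linarith

theorem s_prop : S_prop := by
  intro V u hVo hVc hu ⟨z₁, hz₁, hb⟩
  have hsub : V ⊆ {z : E3 | ∀ᶠ y in 𝓝 z, u y = ⊥} := by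
    apply hVc.subset_of_closure_inter_subset isOpen_setOfPred_eventually_nhds
    · exact ⟨z₁, hz₁, hb⟩
    · rintro z ⟨hzc, hzV⟩
      obtain ⟨R, hR, hball⟩ := Metric.isOpen_iff.1 hVo z hzV
      obtain ⟨a, ha, haz⟩ := Metric.mem_closure_iff.1 hzc (R / 4) (by positivity)
      obtain ⟨δ, hδ, hδb⟩ := Metric.eventually_nhds_iff_ball.1 ha
      show ∀ᶠ y in 𝓝 z, u y = ⊥
      filter_upwards [Metric.ball_mem_nhds z (show 0 < R / 4 by positivity)] with y hy
      rw [mem_ball, dist_eq_norm] at hy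
      rw [dist_eq_norm, norm_sub_rev] at haz
      have hay : ‖a - y‖ ≤ R / 2 := by
        calc ‖a - y‖ = ‖(a - z) - (y - z)‖ := by rw [sub_sub_sub_cancel_right]
          _ ≤ ‖a - z‖ + ‖y - z‖ := norm_sub_le _ _
          _ ≤ R / 2 := by linarith
      refine bot_of_arc hu (z := y) (ξ := a - y) (ε := δ / (‖a - y‖ + 1)) (by positivity) ?_ ?_
      · intro ζ hζ
        apply hball
        rw [mem_ball, dist_eq_norm]
        calc ‖y + ζ • (a - y) - z‖ = ‖(y - z) + ζ • (a - y)‖ := by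
              congr 1
              abel
          _ ≤ ‖y - z‖ + ‖ζ • (a - y)‖ := norm_add_le _ _
          _ = ‖y - z‖ + ‖ζ‖ * ‖a - y‖ := by rw [norm_smul]
          _ ≤ ‖y - z‖ + 1 * ‖a - y‖ := by gcongr
          _ < R := by linarith
      · intro ζ _ hζ
        apply hδb
        rw [mem_ball, dist_eq_norm]
        calc ‖y + ζ • (a - y) - a‖ = ‖(ζ - 1) • (a - y)‖ := by
              congr 1
              rw [sub_smul, one_smul]
              abel
          _ = ‖ζ - 1‖ * ‖a - y‖ := norm_smul _ _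
          _ ≤ ‖ζ - 1‖ * (‖a - y‖ + 1) := by gcongr; linarith
          _ < δ := by rwa [← lt_div_iff₀ (by positivity)]
  intro z hz
  exact (hsub hz).self_of_nhds

end Pool.Agent.H127.K
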